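import Pool.Agent.H.MP_317a58_an.B

set_option autoImplicit false

namespace Pool.Agent.Results.MP_317a58_an.Yes

open Filter Topology

theorem result (𝕜 : Type*) [RCLike 𝕜] (E : Type*) [NormedAddCommGroup E] [NormedSpace 𝕜 E]
    [CompleteSpace E] (hE : ¬FiniteDimensional 𝕜 E) :
    ∃ p : Seminorm 𝕜 E,
      (∃ c C : ℝ, 0 < c ∧ c ≤ C ∧ ∀ x, c * ‖x‖ ≤ p x ∧ p x ≤ C * ‖x‖) ∧
      ∃ K : ℝ, 1 < K ∧ ∀ (e : ℕ → E) (a : E → ℕ → 𝕜),
        (∀ x, Tendsto (fun n => ∑ i ∈ Finset.range n, a x i • e i) atTop (𝓝 x)) →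
        (∀ (x : E) (b : ℕ → 𝕜),
          Tendsto (fun n => ∑ i ∈ Finset.range n, b i • e i) atTop (𝓝 x) → b = a x) →
        ∃ (n : ℕ) (x : E), K * p x < p (∑ i ∈ Finset.range n, a x i • e i) := by
  open Pool.Agent.H.MP_317a58_an in
  obtain ⟨ι, Q, hQ⟩ := ex_emb hE
  obtain ⟨K, K1, hK⟩ := Pool.Agent.H.MP_317a58_an.main ι Q hQ
  refine ⟨_, Pool.Agent.H.MP_317a58_an.sn_equiv ι Q, K, K1, fun e a h1 h2 => ?_⟩
  have aa : ∀ x y, a (x + y) = a x + a y := fun x y => (h2 _ _ (by
    simpa only [Pi.add_apply, add_smul, Finset.sum_add_distrib] using (h1 x).add (h1 y))).symm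
  have as : ∀ (c : 𝕜) x, a (c • x) = c • a x := fun c x => (h2 _ _ (by
    simpa only [Pi.smul_apply, smul_assoc, ← Finset.smul_sum] using (h1 x).const_smul c)).symm
  let P : ℕ → E →ₗ[𝕜] E := fun n =>
    { toFun := fun x => ∑ i ∈ Finset.range n, a x i • e i
      map_add' := fun x y => by simp only [aa, Pi.add_apply, add_smul, Finset.sum_add_distrib]
      map_smul' := fun c x => by
        simp only [as, Pi.smul_apply, smul_assoc, ← Finset.smul_sum, RingHom.id_apply] }
  refine hK P (by ext x; simp [P]) (fun n x => ?_) h1 fun n => ⟨e n, fun x => ⟨a x n, ?_⟩⟩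
  · have := h2 (P n x) (fun i => if i < n then a x i else 0) (by
      refine tendsto_const_nhds.congr' ?_
      filter_upwards [eventually_ge_atTop n] with m hm
      change ∑ i ∈ Finset.range n, a x i • e i = _
      rw [← Finset.sum_subset (Finset.range_mono hm) fun i _ hi => by
        simp [show ¬i < n by simpa using hi]]
      exact Finset.sum_congr rfl fun i hi => by simp [Finset.mem_range.1 hi])
    change ∑ i ∈ Finset.range n, a (P n x) i • e i = ∑ i ∈ Finset.range n, a x i • e i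
    rw [← this]
    exact Finset.sum_congr rfl fun i hi => by simp [Finset.mem_range.1 hi]
  · change ∑ i ∈ Finset.range (n + 1), a x i • e i - ∑ i ∈ Finset.range n, a x i • e i = _
    rw [Finset.sum_range_succ, add_sub_cancel_left]

end Pool.Agent.Results.MP_317a58_an.Yes
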